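import Pool.Agent.Lib.MP_04d34b_co.Lower

/-!
For every fixed `t ≥ 2` the maximum treedepth `h(k, t)` of a finite `P_t`-free graph of treewidth at
most `k` satisfies `h(k, t) = Θ(k ^ ⌊(t - 1) / 2⌋)` as `k → ∞`.

The definitions of treewidth, treedepth, `P_t`-free and of the set `depths k t` of treedepths of
finite `P_t`-free graphs of treewidth at most `k` are in `Pool.Agent.Lib.MP_04d34b_co.Defs`.
-/

namespace Pool.Agent.Results.MP_04d34b_co.TreedepthPathFree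

open Pool.Agent.TDPath Filter Asymptotics

theorem result : ∃ h : ℕ → ℕ → ℕ,
    (∀ k t : ℕ, 2 ≤ t → IsGreatest (depths k t) (h k t)) ∧
    (∀ k t : ℕ, 2 ≤ t → h k t ≤ 4 * (k + 2) ^ ((t - 1) / 2)) ∧
    (∀ k t : ℕ, 3 ≤ t → (k / ((t - 1) / 2) + 1) ^ ((t - 1) / 2) ≤ h k t) ∧
    ∀ t : ℕ, 2 ≤ t → (fun k : ℕ => (h k t : ℝ)) =Θ[atTop] fun k : ℕ => (k : ℝ) ^ ((t - 1) / 2) := by
  classical
  have hub : ∀ k t : ℕ, 2 ≤ t → ∀ d ∈ depths k t, d ≤ 4 * (k + 2) ^ ((t - 1) / 2) := by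
    rintro k t ht d ⟨V, _, G, h1, h2, rfl⟩
    exact treedepth_le ht h1 h2
  have hbdd : ∀ k t : ℕ, 2 ≤ t → BddAbove (depths k t) := fun k t ht =>
    ⟨4 * (k + 2) ^ ((t - 1) / 2), fun d hd => hub k t ht d hd⟩
  -- the one-vertex graph
  have hone : ∀ k t : ℕ, 2 ≤ t → ∃ d ∈ depths k t, 1 ≤ d := by
    intro k t ht
    refine ⟨treedepth (⊥ : SimpleGraph Unit), ⟨Unit, inferInstance, ⊥, ?_, ?_, rfl⟩,
      treedepth_pos _⟩
    · apply (treewidth_le_of_PTD (w := 0) _).trans (Nat.zero_le k)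
      exact ⟨Unit, inferInstance, inferInstance, id, (), fun _ => 0, fun _ => Finset.univ,
        fun i hi => absurd rfl hi, fun v => ⟨(), Finset.mem_univ v⟩,
        fun u v _ => ⟨(), Finset.mem_univ u, Finset.mem_univ v⟩,
        fun v => ⟨(), Finset.mem_univ v, fun i _ => Or.inl rfl⟩, fun _ => by simp⟩
    · refine ⟨fun e => ?_⟩
      have h1 : (⟨0, by omega⟩ : Fin t) = ⟨1, by omega⟩ := e.injective (Subsingleton.elim _ _)
      simp at h1
  have hne : ∀ k t : ℕ, 2 ≤ t → (depths k t).Nonempty := fun k t ht => by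
    obtain ⟨d, hd, _⟩ := hone k t ht
    exact ⟨d, hd⟩
  have hgreat : ∀ k t : ℕ, 2 ≤ t → IsGreatest (depths k t) (sSup (depths k t)) :=
    fun k t ht => ⟨Nat.sSup_mem (hne k t ht) (hbdd k t ht), fun d hd => le_csSup (hbdd k t ht) hd⟩
  have hlow : ∀ k t : ℕ, 3 ≤ t → (k / ((t - 1) / 2) + 1) ^ ((t - 1) / 2) ≤ sSup (depths k t) := by
    intro k t ht
    obtain ⟨V, _, G, h1, h2, h3⟩ := lower k ((t - 1) / 2) (by omega)
    refine h3.trans (le_csSup (hbdd k t (by omega)) ⟨V, inferInstance, G, h1, ?_, rfl⟩)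
    exact pathFree_mono h2 (by omega)
  refine ⟨fun k t => sSup (depths k t), hgreat, fun k t ht => hub k t ht _ (hgreat k t ht).1,
    hlow, ?_⟩
  intro t ht
  set s := (t - 1) / 2 with hs
  constructor
  · -- upper bound
    apply IsBigO.of_bound (4 * 3 ^ s)
    filter_upwards [eventually_ge_atTop 1] with k hk
    have h1 : (sSup (depths k t) : ℕ) ≤ 4 * (k + 2) ^ s := hub k t ht _ (hgreat k t ht).1
    have h2 : ((sSup (depths k t) : ℕ) : ℝ) ≤ 4 * ((k : ℝ) + 2) ^ s := by exact_mod_cast h1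
    have hk' : (1 : ℝ) ≤ k := by exact_mod_cast hk
    rw [Real.norm_of_nonneg (Nat.cast_nonneg _), Real.norm_of_nonneg (by positivity)]
    calc ((sSup (depths k t) : ℕ) : ℝ) ≤ 4 * ((k : ℝ) + 2) ^ s := h2
      _ ≤ 4 * (3 * (k : ℝ)) ^ s := by
          gcongr
          linarith
      _ = 4 * 3 ^ s * (k : ℝ) ^ s := by rw [mul_pow]; ring
  · -- lower bound
    rcases Nat.eq_zero_or_pos s with h0 | hpos
    · rw [h0]
      apply IsBigO.of_bound 1
      filter_upwards with k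
      obtain ⟨d, hd, hd1⟩ := hone k t ht
      have h1 : 1 ≤ (sSup (depths k t) : ℕ) := hd1.trans (le_csSup (hbdd k t ht) hd)
      have h2 : (1 : ℝ) ≤ ((sSup (depths k t) : ℕ) : ℝ) := by exact_mod_cast h1
      rw [Real.norm_of_nonneg (by positivity), Real.norm_of_nonneg (Nat.cast_nonneg _)]
      simpa using h2
    · apply IsBigO.of_bound ((s : ℝ) ^ s)
      filter_upwards with k
      have h1 := hlow k t (by omega)
      rw [← hs] at h1
      have h2 : (((k / s : ℕ) : ℝ) + 1) ^ s ≤ ((sSup (depths k t) : ℕ) : ℝ) := by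
        exact_mod_cast h1
      rw [Real.norm_of_nonneg (by positivity), Real.norm_of_nonneg (Nat.cast_nonneg _)]
      have h3 : (k : ℝ) ≤ s * (((k / s : ℕ) : ℝ) + 1) := by
        have h4 : k < s * (k / s + 1) := Nat.lt_mul_div_succ k hpos
        exact_mod_cast h4.le
      calc (k : ℝ) ^ s ≤ (s * (((k / s : ℕ) : ℝ) + 1)) ^ s := by gcongr
        _ = (s : ℝ) ^ s * (((k / s : ℕ) : ℝ) + 1) ^ s := by rw [mul_pow]
        _ ≤ (s : ℝ) ^ s * ((sSup (depths k t) : ℕ) : ℝ) := by gcongr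

end Pool.Agent.Results.MP_04d34b_co.TreedepthPathFree
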